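import Mathlib
import Pool.Agent.W622.ETC.Stm

/-!
Project ELT (helper622): fullness of a block.
-/

set_option autoImplicit false

namespace Pool.Agent.W928.ELT

open Pool.Agent.W622.ETC Module

theorem t_BFULL : S_BFULL := by
  intro V _ _ _ A X f hX hf
  rcases hX with hX | hX
  · obtain ⟨⟨p, h3, hp, hp0, hw⟩, -⟩ := hX
    have hmem : ∀ g ∈ X, wd p g ∈ res A X := by
      intro g hg
      refine mem_res.2 ⟨hw g hg, fun a => ?_⟩
      rw [wd_apply]
      exact X.add_mem (X.smul_mem _ hg) (X.smul_mem _ hp)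
    by_cases hf0 : f = 0
    · exact ⟨0, Submodule.zero_mem _, 0, by rw [hf0]; rfl⟩
    by_cases hfp : f = p
    · have hg : ∃ g ∈ X, g ∉ Submodule.span (ZMod 2) {p} := by
        by_contra hcon
        push Not at hcon
        have h4 : X ≤ Submodule.span (ZMod 2) {p} := hcon
        have h5 := Submodule.finrank_mono h4
        have h6 : finrank (ZMod 2) (Submodule.span (ZMod 2) {p}) = 1 := finrank_span_singleton hp0
        omega
      obtain ⟨g, hgX, hg⟩ := hg
      obtain ⟨b, hb, hb1⟩ := exists_coann hg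
      refine ⟨wd p g, hmem g hgX, b, ?_⟩
      rw [wd_apply, hb p (Submodule.mem_span_singleton_self p), hb1, zero_smul, one_smul, zero_add,
        hfp]
    · have hpf : p ∉ Submodule.span (ZMod 2) {f} := by
        intro h
        rcases span_one_mem.1 h with h | h
        · exact hp0 h
        · exact hfp h.symm
      obtain ⟨b, hb, hb1⟩ := exists_coann hpf
      refine ⟨wd p f, hmem f hf, b, ?_⟩
      rw [wd_apply, hb f (Submodule.mem_span_singleton_self f), hb1, zero_smul, one_smul, add_zero]
  · obtain ⟨ω, hω, hXω, -⟩ := hX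
    rw [hXω] at hf
    obtain ⟨a, ha⟩ := hf
    refine ⟨ω, mem_res'.2 ⟨hω.1, ?_⟩, a, ha⟩
    rw [hXω]

end Pool.Agent.W928.ELT
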